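import Pool.Agent.Lib_helper80.GG.DDefs
import Pool.Agent.Lib_helper80.GG.B.D02
import Pool.Agent.Lib_helper80.GG.B.D06
import Pool.Agent.Lib_helper80.GG.B.D07
import Pool.Agent.Lib_helper80.GG.B.D08
import Pool.Agent.Lib_helper80.GG.B.D09
import Pool.Agent.Lib_helper80.GG.B.D12
import Pool.Agent.Lib_helper80.GG.B.D13b
import Pool.Agent.Lib_helper80.GG.B.D14
import Pool.Agent.Lib_helper80.GG.B.D15
import Pool.Agent.Lib_helper80.GG.B.D16
import Pool.Agent.Lib_helper80.GG.B.D17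
import Pool.Agent.Lib_helper80.GG.B.D18
import Pool.Agent.Lib_helper80.GG.B.D21
import Pool.Agent.Lib_helper80.GG.B.D22
import Pool.Agent.Lib_helper80.GG.B.D23
import Pool.Agent.Lib_helper82.BR.B.CHA

/-! # Existence of invariant jet differentials (MP_45e720_ag): assembly of parts D and E -/

set_option autoImplicit false

open Filter Topology Metric Set
open scoped Manifold ContDiff

namespace Pool.Agent.GG.PD

open Pool.Agent.BR

section surface

variable {X : Type} [MetricSpace X] {A : Cha V2 X} {b : ℕ}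

theorem lz_dlt_ev {T : Fin 3 → A.ι → X → ℂ} {i : A.ι} {x : X} (hx : x ∈ (A.ch i).source) :
    lz A i (dlt A T i) =ᶠ[𝓝 (A.ch i x)] dl (lT A T i) := by
  filter_upwards [(A.ch i).open_target.mem_nhds ((A.ch i).map_source hx)] with z hz
  simp only [lz, dlt]
  rw [(A.ch i).right_inv hz]

theorem ds_dlt {T : Fin 3 → A.ι → X → ℂ} {i : A.ι} {x : X} (hx : x ∈ (A.ch i).source) (j : Fin 2) :
    ds A (dlt A T) j i x = pd j (dl (lT A T i)) (A.ch i x) := by
  simp only [ds, pd]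
  rw [(lz_dlt_ev hx).fderiv_eq]

theorem lz_self {s : X → ℂ} {i : A.ι} {x : X} (hx : x ∈ (A.ch i).source) :
    lz A i s (A.ch i x) = s x := by
  simp only [lz]
  rw [(A.ch i).left_inv hx]

theorem exists_net_pr [CompactSpace X] [Nonempty X] {M : ℕ} {a : Fin M → A.ι → X → ℂ}
    (ha : VV A b M a) :
    ∃ c : Fin 3 → Fin M → ℂ, Net A b (fun p i x => ∑ j, c p j * a j i x) := by
  obtain ⟨c, hc⟩ := exists_gen_pr ha
  set T : Fin 3 → A.ι → X → ℂ := fun l => cmb a (c l) with hT_def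
  have hT : ∀ l, IS.PS A b (T l) := fun l => ps_cmb_pr ha.ps (c l)
  have hval : ∀ i, ∀ x ∈ (A.ch i).source, ∃ l, T l i x ≠ 0 := by
    intro i x hx
    obtain ⟨l, hl⟩ := (hc i x hx).g1
    refine ⟨l, ?_⟩
    intro h0
    apply hl
    show lz A i (cmb a (c l) i) (A.ch i x) = 0
    rw [lz_self hx]
    exact h0
  have h1 : ∀ x, ∃ j, x ∉ ZS A (T j) := by
    intro x
    obtain ⟨i, hi⟩ := A.cover x
    have hx : x ∈ (A.ch i).source := A.W_sub i (subset_closure hi)
    obtain ⟨l, hl⟩ := hval i x hx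
    exact ⟨l, fun h => hl (h i hx)⟩
  have hDF : DF A T := df_of_gen_pr ha hc
  have han : ∀ i, ∀ x ∈ (A.ch i).source, ∀ l, AnalyticAt ℂ (lT A T i l) (A.ch i x) :=
    fun i x hx l => (hT l).an i x hx
  have hσ : Sm A (dlt A T) := by
    refine ⟨ps_sc_pr (ps_dlt_pr hT), ?_⟩
    intro i x hx h0
    have e0 := (pd_dl_pr (han i x hx) 0).1
    have e1 := fun d => (pd_dl_pr (han i x hx) d).2
    have h0' : dlj (fun l => jet2 (lT A T i l) (A.ch i x)) = 0 := by
      rw [← e0]; exact h0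
    rcases (hc i x hx).g3 h0' with h | h
    · exact ⟨0, by rw [ds_dlt hx, e1 0]; exact h⟩
    · exact ⟨1, by rw [ds_dlt hx, e1 1]; exact h⟩
  obtain ⟨v, hv0, hv⟩ := arc_count_pr hT h1 hDF hσ
  have hg2 : ∀ i, ∀ x ∈ (A.ch i).source, T 0 i x = 0 → ∃ j, ds A (T 0) j i x ≠ 0 := by
    intro i x hx h0
    have h0' : (fun l => jet2 (lz A i (cmb a (c l) i)) (A.ch i x)) 0 0 = 0 := by
      show lz A i (cmb a (c 0) i) (A.ch i x) = 0
      rw [lz_self hx]; exact h0
    rcases (hc i x hx).g2 h0' with h | h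
    · exact ⟨0, h⟩
    · exact ⟨1, h⟩
  obtain ⟨ε, hε, hopen⟩ := open_g2_pr hT hg2
  obtain ⟨a₀, ha₀, ha₀v⟩ := avoid_pr (F := Fin 3 → ℂ) (S := fun n => Submodule.span ℂ {v n})
    (by
      intro n h
      have h3 : Module.finrank ℂ (Submodule.span ℂ {v n}) = 3 := by
        rw [h]; simp
      have h4 := finrank_span_singleton (K := ℂ) (hv0 n)
      omega) (Pi.single 0 1) hε
  have ha₀n : ∀ n, ∀ z : ℂ, a₀ ≠ z • v n := by
    intro n z h
    exact ha₀v n (Submodule.mem_span_singleton.2 ⟨z, h.symm⟩)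
  have ha₀0 : a₀ ≠ 0 := fun h => ha₀n 0 0 (by rw [h, zero_smul])
  have hno0 : ∀ x ∈ ZS A (dlt A T), ¬ VN A (dlt A T) (cmb T a₀) x := by
    intro x hx h
    obtain ⟨n, z, hz⟩ := hv a₀ ha₀0 ⟨x, hx, h⟩
    exact ha₀n n z hz
  have hfin : (ZS A (dlt A T) ∩ ZS A (cmb T a₀)).Finite :=
    zs_fin_pr hσ (ps_sc_pr (ps_cmb_pr hT a₀)) hno0
  let W : Set (Fin 3 → ℂ) :=
    (fun x l => T l (ci A x) x) '' (ZS A (dlt A T) ∩ ZS A (cmb T a₀))
  have hci : ∀ x, x ∈ (A.ch (ci A x)).source :=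
    fun x => A.W_sub _ (subset_closure (A.cover x).choose_spec)
  have hW0 : ∀ w ∈ W, w ≠ 0 := by
    rintro w ⟨x, -, rfl⟩ h
    obtain ⟨l, hl⟩ := hval (ci A x) x (hci x)
    exact hl (congrFun h l)
  obtain ⟨a₁, a₂, hdet, hva, hWa⟩ := choose_basis_pr hv0 ha₀n (hfin.image _) hW0
  set a' : Fin 3 → Fin 3 → ℂ := ![a₀, a₁, a₂] with ha'
  have key : (fun (p : Fin 3) (i : A.ι) (x : X) => ∑ j, (∑ l, a' p l * c l j) * a j i x) =
      fun p => cmb T (a' p) := by
    funext p i x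
    simp only [cmb, hT_def, Finset.sum_mul, Finset.mul_sum]
    rw [Finset.sum_comm]
    refine Finset.sum_congr rfl fun l _ => Finset.sum_congr rfl fun j _ => by ring
  refine ⟨fun p j => ∑ l, a' p l * c l j, ?_⟩
  rw [key]
  have hT' : ∀ p, IS.PS A b (cmb T (a' p)) := fun p => ps_cmb_pr hT (a' p)
  have hz' : ZS A (dlt A fun p => cmb T (a' p)) = ZS A (dlt A T) := by
    ext x
    constructor
    · intro h i hx
      have := h i hx
      rw [(dlt_cmb_pr hT a' hx).1] at this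
      exact (mul_eq_zero.1 this).resolve_left hdet
    · intro h i hx
      rw [(dlt_cmb_pr hT a' hx).1, h i hx, mul_zero]
  have hσ' : Sm A (dlt A fun p => cmb T (a' p)) := by
    refine ⟨ps_sc_pr (ps_dlt_pr hT'), ?_⟩
    intro i x hx h0
    rw [(dlt_cmb_pr hT a' hx).1] at h0
    obtain ⟨j, hj⟩ := hσ.sm i x hx ((mul_eq_zero.1 h0).resolve_left hdet)
    exact ⟨j, by rw [(dlt_cmb_pr hT a' hx).2 j]; exact mul_ne_zero hdet hj⟩
  have hvn : ∀ s x, VN A (dlt A fun p => cmb T (a' p)) s x ↔ VN A (dlt A T) s x := by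
    intro s x
    simp only [VN, hz']
  refine ⟨ha.b_pos, hT', ?_, ?_, hσ'.sm, ?_, ?_, ?_⟩
  · intro x
    by_contra hcon
    push Not at hcon
    obtain ⟨l, hl⟩ := hval (ci A x) x (hci x)
    have h0 : (Matrix.of a').mulVec (fun l => T l (ci A x) x) = 0 := by
      funext p
      have := hcon p (ci A x) (hci x)
      simpa [Matrix.mulVec, dotProduct, cmb] using this
    have h3 := Matrix.eq_zero_of_mulVec_eq_zero hdet h0
    exact hl (congrFun h3 l)
  · intro i x hx h0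
    exact hopen a₀ (by simpa using ha₀) i x hx h0
  · rw [hz', Set.inter_comm]
    exact hfin
  · rintro x ⟨hx0, hx1⟩ h
    rw [hz'] at hx1
    have h2 := h (ci A x) (hci x)
    exact hWa (fun l => T l (ci A x) x) ⟨x, ⟨hx1, hx0⟩, rfl⟩ h2
  · refine g5_fin_pr (T := fun p => cmb T (a' p)) hT' hσ' ?_ ?_
    · intro x hx h
      rw [hz'] at hx
      exact hno0 x hx ((hvn _ _).1 h)
    · intro z x hx h
      rw [hz'] at hx
      rw [hvn] at h
      have e : (fun (i : A.ι) (y : X) => cmb T (a' 1) i y - z * cmb T (a' 0) i y) =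
          cmb T (a₁ - z • a₀) := by
        funext i y
        simp only [cmb, ha', Matrix.cons_val_one, Matrix.cons_val_zero, Finset.mul_sum,
          ← Finset.sum_sub_distrib, Pi.sub_apply, Pi.smul_apply, smul_eq_mul]
        refine Finset.sum_congr rfl fun l _ => by ring
      rw [e] at h
      have hne : a₁ - z • a₀ ≠ 0 := by
        intro h0
        have h1' : a₁ = z • a₀ := sub_eq_zero.1 h0
        apply hdet
        have hd : Matrix.det (Matrix.of ![a₀, z • a₀, a₂]) = 0 := by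
          rw [Matrix.det_fin_three]
          simp
          ring
        rw [ha', h1']
        exact hd
      obtain ⟨n, z', hz'⟩ := hv _ hne ⟨x, hx, h⟩
      have hz0 : z' ≠ 0 := by
        rintro rfl
        rw [zero_smul] at hz'
        exact hne hz'
      refine hva n (-(z'⁻¹ * z)) z'⁻¹ ?_
      have : v n = z'⁻¹ • (z' • v n) := by rw [smul_smul, inv_mul_cancel₀ hz0, one_smul]
      rw [this, ← hz']
      module

end surface

theorem exists_vv_pr {E X : Type} [NormedAddCommGroup E] [NormedSpace ℂ E] [FiniteDimensional ℂ E]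
    [MetricSpace X] [CompactSpace X] [Nonempty X] [ChartedSpace E X] [IsManifold 𝓘(ℂ, E) ω X]
    (h : CanonicalVeryAmple E X) :
    ∃ (e : E ≃L[ℂ] V2) (A : Cha V2 X)
      (_ : ∀ i, ∃ y, A.ch i = (chartAt E y).transHomeomorph e.toHomeomorph)
      (b M : ℕ) (a : Fin M → A.ι → X → ℂ), VV A b M a := by
  obtain ⟨A, hA⟩ := exists_cha (E := E) (X := X)
  have hfr : Module.finrank ℂ E = Module.finrank ℂ V2 := by
    rw [h.1]; simp
  let e : E ≃L[ℂ] V2 := ContinuousLinearEquiv.ofFinrankEq hfr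
  obtain ⟨k, n, a, hk, ha, hsep⟩ := exists_af_sep_pr A hA h
  obtain ⟨M, a', ha'⟩ := vv_of_af_pr (A := trC e A) hk (af_trC_pr e ha) hsep
  refine ⟨e, trC e A, ?_, 2 * k, M, a', ha'⟩
  intro i
  obtain ⟨y, hy⟩ := hA i
  exact ⟨y, by rw [← hy]; rfl⟩

end Pool.Agent.GG.PD
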