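import Pool.Agent.Lib_helper82.GG.D.I

/-! # Existence of invariant jet differentials (MP_45e720_ag): definitions for part D (the choice of
the sections `T 0`, `T 1`, `T 2`, `T₃`) and part E (independence of the monomials) -/

set_option autoImplicit false

open Filter Topology Metric Set

namespace Pool.Agent.GG.PD

open Pool.Agent.BR

/-! ## two-jets in two variables -/

/-- the two-jet of `f` at `ξ` -/
noncomputable def jet2 (f : V2 → ℂ) (ξ : V2) : Fin 6 → ℂ :=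
  ![f ξ, pd 0 f ξ, pd 1 f ξ, pd 0 (pd 0 f) ξ, pd 0 (pd 1 f) ξ, pd 1 (pd 1 f) ξ]

/-- the one-jet part of a two-jet -/
def rw1 (v : Fin 6 → ℂ) : Fin 3 → ℂ := ![v 0, v 1, v 2]

/-- the derivative of the one-jet part in the direction `d` -/
def drw (d : Fin 2) (v : Fin 6 → ℂ) : Fin 3 → ℂ :=
  if d = 0 then ![v 1, v 3, v 4] else ![v 2, v 4, v 5]

/-- the determinant of the one-jets of three functions -/
def dlj (J : Fin 3 → Fin 6 → ℂ) : ℂ := Matrix.det (Matrix.of fun l => rw1 (J l))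

/-- the derivative of the determinant in the direction `d` -/
def ddl (d : Fin 2) (J : Fin 3 → Fin 6 → ℂ) : ℂ :=
  ∑ m : Fin 3, Matrix.det (Matrix.of fun l => if l = m then drw d (J l) else rw1 (J l))

/-- bad jets of the first kind: all values are zero -/
def bd1 (θ : Fin 3 → Fin 5 → ℂ) : Fin 3 → Fin 6 → ℂ :=
  fun l => ![0, θ l 0, θ l 1, θ l 2, θ l 3, θ l 4]

/-- bad jets of the second kind: the one-jets have rank at most one -/
def bd2 (θ : (Fin 3 → ℂ) × (Fin 3 → ℂ) × (Fin 3 → Fin 3 → ℂ)) : Fin 3 → Fin 6 → ℂ := fun l =>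
  ![θ.1 l * θ.2.1 0, θ.1 l * θ.2.1 1, θ.1 l * θ.2.1 2, θ.2.2 l 0, θ.2.2 l 1, θ.2.2 l 2]

/-- bad jets of the third kind: the one-jet of the first function is zero -/
def bd3 (θ : (Fin 3 → ℂ) × (Fin 6 → ℂ) × (Fin 6 → ℂ)) : Fin 3 → Fin 6 → ℂ :=
  ![![0, 0, 0, θ.1 0, θ.1 1, θ.1 2], θ.2.1, θ.2.2]

/-- the vector `γ (k₂², - k₁ k₂, k₁²)` of second derivatives, `k` = the cross product of the
one-jets -/
def crs (γ : ℂ) (u v : Fin 6 → ℂ) : Fin 6 → ℂ :=
  ![0, 0, 0, γ * (u 0 * v 1 - u 1 * v 0) ^ 2,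
    -(γ * (u 2 * v 0 - u 0 * v 2) * (u 0 * v 1 - u 1 * v 0)), γ * (u 2 * v 0 - u 0 * v 2) ^ 2]

/-- bad jets of the fourth kind: the row `m` makes `dlj` and its derivatives vanish -/
def bd4 (m : Fin 3) (θ : (Fin 6 → ℂ) × (Fin 6 → ℂ) × ℂ × ℂ × ℂ) : Fin 3 → Fin 6 → ℂ := fun l =>
  if l = m then θ.2.2.1 • θ.1 + θ.2.2.2.1 • θ.2.1 + crs θ.2.2.2.2 θ.1 θ.2.1
  else if l = m + 1 then θ.1 else θ.2.1

/-- the two-jet of the combination `∑ c j * f j` -/
noncomputable def JL {M : ℕ} (f : Fin M → V2 → ℂ) (ξ : V2) (c : Fin M → ℂ) : Fin 6 → ℂ :=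
  ∑ j, c j • jet2 (f j) ξ

/-- the conditions on the two-jets of three functions -/
structure Gen1 (J : Fin 3 → Fin 6 → ℂ) : Prop where
  g1 : ∃ l, J l 0 ≠ 0
  rk : ∀ θ, J ≠ bd2 θ
  g2 : J 0 0 = 0 → J 0 1 ≠ 0 ∨ J 0 2 ≠ 0
  g3 : dlj J = 0 → ddl 0 J ≠ 0 ∨ ddl 1 J ≠ 0

/-- thin sets: the Hausdorff dimension is at most the dimension of the space minus one -/
def Thin {F : Type} [NormedAddCommGroup F] [NormedSpace ℂ F] (S : Set F) : Prop :=
  dimH S + 1 ≤ Module.finrank ℝ F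

/-! ## sections -/

section surface

variable {X : Type} [MetricSpace X]

/-- the combination of the sections `s` with the coefficients `c` -/
noncomputable def cmb {A : Cha V2 X} {M : ℕ} (s : Fin M → A.ι → X → ℂ) (c : Fin M → ℂ) (i : A.ι) (x : X) : ℂ :=
  ∑ j, c j * s j i x

/-- `s` is analytic, and its zeros do not depend on the chart -/
structure Sc (A : Cha V2 X) (s : A.ι → X → ℂ) : Prop where
  an : ∀ i, ∀ x ∈ (A.ch i).source, AnalyticAt ℂ (lz A i (s i)) (A.ch i x)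
  zr : ∀ i j x, x ∈ (A.ch i).source → x ∈ (A.ch j).source → s j x = 0 → s i x = 0

/-- the zeros of `σ` form a smooth curve -/
structure Sm (A : Cha V2 X) (σ : A.ι → X → ℂ) : Prop where
  sc : Sc A σ
  sm : ∀ i, ∀ x ∈ (A.ch i).source, σ i x = 0 → ∃ j, ds A σ j i x ≠ 0

/-- `s` vanishes on the curve `σ = 0` near `x` -/
def VN (A : Cha V2 X) (σ s : A.ι → X → ℂ) (x : X) : Prop :=
  ∀ᶠ y in 𝓝 x, y ∈ ZS A σ → y ∈ ZS A s

/-- the points `y` with `[T y] = [T x]` -/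
def FB (A : Cha V2 X) (T : Fin 3 → A.ι → X → ℂ) (x : X) : Set X :=
  {y | ∃ i j, x ∈ (A.ch i).source ∧ y ∈ (A.ch j).source ∧ ∃ m : ℂ, ∀ l, T l j y = m * T l i x}

/-- the fibres of the map defined by the sections `T l` have no accumulation points -/
def DF (A : Cha V2 X) (T : Fin 3 → A.ι → X → ℂ) : Prop :=
  ∀ x : X, ∀ᶠ y in 𝓝[≠] x, y ∉ FB A T x

end surface

/-- the atlas with charts in `V2` -/
noncomputable def trC {E X : Type} [NormedAddCommGroup E] [NormedSpace ℂ E] [MetricSpace X]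
    (e : E ≃L[ℂ] V2) (A : Cha E X) : Cha V2 X where
  ι := A.ι
  fin := A.fin
  ch i := (A.ch i).transHomeomorph e.toHomeomorph
  W := A.W
  W_open := A.W_open
  W_sub := A.W_sub
  cover := A.cover
  trans := by
    intro i j x hi hj
    have h := A.trans i j x hi hj
    have h1 : AnalyticAt ℂ (fun ξ : V2 => e.symm ξ) (e (A.ch i x)) :=
      (e.symm : V2 →L[ℂ] E).analyticAt _
    have h2 : AnalyticAt ℂ (fun ξ : E => e ξ) (A.ch j ((A.ch i).symm (A.ch i x))) :=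
      (e : E →L[ℂ] V2).analyticAt _
    have h3 : AnalyticAt ℂ (fun ξ : V2 => A.ch j ((A.ch i).symm (e.symm ξ))) (e (A.ch i x)) :=
      AnalyticAt.fun_comp (g := fun ξ => A.ch j ((A.ch i).symm ξ)) (by simpa using h) h1
    exact AnalyticAt.fun_comp (g := fun ξ : E => e ξ) (by simpa using h2) h3

end Pool.Agent.GG.PD
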